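import Mathlib
import Pool.Agent.GD71.Defs

/-!
Centred logarithmic moments of the Gamma distributions: definitions.
-/

set_option autoImplicit false

namespace Pool.Agent.GJ14

open Finset Pool.Agent.GD71

/-- the number `∫_0^∞ (γ + log t) ^ k * t ^ n * e ^ (-t) dt` -/
noncomputable def N (k n : ℕ) : ℝ :=
  ∫ t in Set.Ioi (0 : ℝ), (Real.eulerMascheroniConstant + Real.log t) ^ k * t ^ n * Real.exp (-t)

/-- the Taylor coefficients at `0` of `exp (γ x) Γ(1 + x)` -/
noncomputable def h (i : ℕ) : ℝ :=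
  ∑ j ∈ range (i + 1), Real.eulerMascheroniConstant ^ j / (j.factorial : ℝ) * g (i - j)

end Pool.Agent.GJ14
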