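import Pool.Agent.GJ14.Int
import Pool.Agent.GD71.Pos
import Pool.Agent.GD71.Zeta
import Pool.Agent.GD71.Shift
import Pool.Agent.GD71.Refl

/-!
Facts about the Taylor coefficients of `exp (γ x) Γ(1 + x)`.
-/

set_option autoImplicit false

namespace Pool.Agent.GJ14

open Finset Pool.Agent.GD71

lemma g_zero' : g 0 = 1 := by
  simp [g]

lemma h_zero : h 0 = 1 := by
  simp [h, g_zero']

lemma g_one : g 1 = -Real.eulerMascheroniConstant := by
  have h1 := g_succ 0
  simp only [Nat.cast_zero, zero_add, one_mul, g_zero', mul_one] at h1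
  rw [Finset.Icc_eq_empty (by norm_num), Finset.sum_empty, add_zero] at h1
  exact h1

lemma h_one : h 1 = 0 := by
  simp [h, Finset.sum_range_succ, g_zero', g_one]

/-! ### power series -/

open PowerSeries in
/-- `exp (γ X)` -/
noncomputable def Ex : PowerSeries ℝ := rescale Real.eulerMascheroniConstant (exp ℝ)

open PowerSeries in
/-- the series of `h` -/
noncomputable def Hs : PowerSeries ℝ := PowerSeries.mk h

open PowerSeries in
lemma coeff_Ex (n : ℕ) : coeff n Ex = Real.eulerMascheroniConstant ^ n / (n.factorial : ℝ) := by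
  rw [Ex, coeff_rescale, coeff_exp]
  simp [div_eq_mul_inv]

open PowerSeries in
lemma Hs_eq : Hs = Ex * Pos5.G := by
  ext n
  rw [coeff_mul, Finset.Nat.sum_antidiagonal_eq_sum_range_succ_mk]
  simp only [Hs, coeff_mk, coeff_Ex, Pos5.G]
  rfl

open PowerSeries in
lemma Ex_neg : Ex * rescale (-1 : ℝ) Ex = 1 := by
  have h1 := exp_mul_exp_neg_eq_one (A := ℝ)
  have h2 : rescale (-1 : ℝ) Ex = rescale Real.eulerMascheroniConstant (evalNegHom (exp ℝ)) := by
    rw [Ex, evalNegHom, rescale_rescale, rescale_rescale, mul_comm]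
  rw [h2, Ex, ← map_mul, h1, map_one]

open PowerSeries in
lemma conv_coeff (l : ℕ) : ∑ i ∈ range (2 * l + 1), (-1 : ℝ) ^ i * h i * h (2 * l - i) =
    coeff (2 * l) (Hs * rescale (-1 : ℝ) Hs) := by
  rw [coeff_mul, Finset.Nat.sum_antidiagonal_eq_sum_range_succ_mk]
  refine Finset.sum_congr rfl fun i hi => ?_
  have hi' : i ≤ 2 * l := by simpa [Nat.lt_succ_iff] using hi
  simp only [Hs, coeff_rescale, coeff_mk]
  have e : (-1 : ℝ) ^ (2 * l - i) = (-1) ^ i := by
    have h1 : (-1 : ℝ) ^ (2 * l - i) * (-1) ^ i = 1 := by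
      rw [← pow_add, Nat.sub_add_cancel hi', pow_mul]; simp
    have h2 : (-1 : ℝ) ^ i * (-1) ^ i = 1 := by
      rw [← mul_pow]; simp
    have h3 : (-1 : ℝ) ^ i ≠ 0 := pow_ne_zero _ (by norm_num)
    exact mul_right_cancel₀ h3 (h1.trans h2.symm)
  rw [e]; ring

open PowerSeries in
/-- the reflection formula -/
theorem conv (l : ℕ) : ∑ i ∈ range (2 * l + 1), (-1 : ℝ) ^ i * h i * h (2 * l - i) =
    (c l : ℝ) * Real.pi ^ (2 * l) := by
  rw [conv_coeff, Hs_eq, map_mul (rescale (-1 : ℝ))]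
  have e1 : Ex * Pos5.G * (rescale (-1 : ℝ) Ex * rescale (-1 : ℝ) Pos5.G) =
      (Ex * rescale (-1 : ℝ) Ex) * (Pos5.G * rescale (-1 : ℝ) Pos5.G) := by ring
  rw [e1, Ex_neg, one_mul, ← Pos5.Gm_eq, ← Pos5.C_eq_coeff, C_eq]

open PowerSeries in
lemma Ex_der : derivative ℝ Ex = C Real.eulerMascheroniConstant * Ex := by
  ext n
  rw [coeff_derivative, coeff_C_mul, coeff_Ex, coeff_Ex, Nat.factorial_succ, pow_succ]
  have h1 : (n.factorial : ℝ) ≠ 0 := by positivity
  have h2 : (n : ℝ) + 1 ≠ 0 := by positivity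
  push_cast
  field_simp

open PowerSeries in
/-- the recursion -/
theorem h_succ (i : ℕ) : ((i : ℝ) + 1) * h (i + 1) =
    ∑ j ∈ Finset.Icc 2 (i + 1), (-1 : ℝ) ^ j * zeta j * h (i + 1 - j) := by
  have h1 : derivative ℝ Hs = Hs * (C Real.eulerMascheroniConstant + Pos5.Ps) := by
    rw [Hs_eq, Derivation.leibniz, Ex_der, Pos5.main_ode g_succ]
    simp only [smul_eq_mul]
    ring
  have h2 := congrArg (coeff i) h1
  rw [coeff_derivative, coeff_mul, Finset.Nat.sum_antidiagonal_eq_sum_range_succ_mk] at h2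
  simp only [Hs, coeff_mk] at h2
  rw [mul_comm, h2, Finset.sum_range_succ]
  have h3 : coeff (i - i) (C Real.eulerMascheroniConstant + Pos5.Ps) = 0 := by
    rw [Nat.sub_self, map_add]
    simp [Pos5.Ps]
  rw [h3, mul_zero, add_zero]
  have e : Finset.Icc 2 (i + 1) = (range i).image (fun k => i + 1 - k) := by
    ext j
    simp only [Finset.mem_image, Finset.mem_range, Finset.mem_Icc]
    constructor
    · rintro ⟨h1, h2⟩; exact ⟨i + 1 - j, by omega, by omega⟩
    · rintro ⟨a, ha, rfl⟩; omega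
  rw [e, Finset.sum_image (by
    intro a ha b hb hab
    rw [Finset.coe_range, Set.mem_Iio] at ha hb
    simp only at hab
    omega)]
  refine Finset.sum_congr rfl fun a ha => ?_
  rw [Finset.mem_range] at ha
  have e1 : i + 1 - (i + 1 - a) = a := by omega
  have e2 : i + 1 - a = (i - a) + 1 := by omega
  have e3 : coeff (i - a) (C Real.eulerMascheroniConstant + Pos5.Ps) =
      (-1 : ℝ) ^ (i - a + 1) * zeta (i - a + 1) := by
    rw [map_add, coeff_C, if_neg (by omega), zero_add]
    simp only [Pos5.Ps, coeff_mk]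
    rw [if_neg (by omega)]
  rw [e1, e2, e3]
  ring

/-! ### the shift -/

theorem shiftN (k n : ℕ) : N k n =
    (k.factorial : ℝ) * ∑ j ∈ range (k + 1), (E n j : ℝ) * h (k - j) := by
  rw [N_eq]
  have h1 : ∀ i ∈ range (k + 1), (k.choose i : ℝ) * Real.eulerMascheroniConstant ^ (k - i) *
      iteratedDeriv i Real.Gamma ((n : ℝ) + 1) =
      ∑ j ∈ range (i + 1), (k.factorial : ℝ) * (Real.eulerMascheroniConstant ^ (k - i) /
        ((k - i).factorial : ℝ) * ((E n j : ℝ) * g (i - j))) := by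
    intro i hi
    have hi' : i ≤ k := Nat.lt_succ_iff.1 (Finset.mem_range.1 hi)
    rw [shift, Finset.mul_sum, Finset.mul_sum]
    refine Finset.sum_congr rfl fun j _ => ?_
    rw [Nat.cast_choose ℝ hi']
    have h2 : (i.factorial : ℝ) ≠ 0 := by positivity
    have h3 : ((k - i).factorial : ℝ) ≠ 0 := by positivity
    field_simp
  rw [Finset.sum_congr rfl h1, Finset.mul_sum]
  simp only [h, Finset.mul_sum]
  rw [Finset.sum_sigma', Finset.sum_sigma']
  refine Finset.sum_bij' (fun x _ => ⟨x.2, k - x.1⟩) (fun x _ => ⟨k - x.2, x.1⟩) ?_ ?_ ?_ ?_ ?_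
  · rintro ⟨i, j⟩ hx
    simp only [Finset.mem_sigma, Finset.mem_range] at hx ⊢
    omega
  · rintro ⟨j, a⟩ hx
    simp only [Finset.mem_sigma, Finset.mem_range] at hx ⊢
    omega
  · rintro ⟨i, j⟩ hx
    simp only [Finset.mem_sigma, Finset.mem_range] at hx ⊢
    have : k - (k - i) = i := by omega
    simp only [this]
  · rintro ⟨j, a⟩ hx
    simp only [Finset.mem_sigma, Finset.mem_range] at hx ⊢
    have : k - (k - a) = a := by omega
    simp only [this]
  · rintro ⟨i, j⟩ hx
    simp only [Finset.mem_sigma, Finset.mem_range] at hx ⊢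
    have : k - j - (k - i) = i - j := by omega
    rw [this]
    ring

end Pool.Agent.GJ14
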