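import Pool.Agent.GJ14.H

/-!
The numbers `N k n` lie in the field generated by `π` and the odd zeta values.
-/

set_option autoImplicit false

namespace Pool.Agent.GJ14

open Finset Pool.Agent.GD71

/-- Euler (hasSum_zeta_nat) -/
theorem zeta_even (j : ℕ) (hj : 1 ≤ j) : ∃ q : ℚ, zeta (2 * j) = q * Real.pi ^ (2 * j) := by
  have h1 := hasSum_zeta_nat (k := j) (by omega)
  refine ⟨(-1) ^ (j + 1) * 2 ^ (2 * j - 1) * bernoulli (2 * j) / ((2 * j).factorial : ℚ), ?_⟩
  have h2 : zeta (2 * j) = ∑' n : ℕ, 1 / (n : ℝ) ^ (2 * j) := by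
    unfold zeta
    rw [h1.summable.tsum_eq_zero_add, Nat.cast_zero, zero_pow (by omega), div_zero, zero_add]
    refine tsum_congr fun i => ?_
    push_cast
    rfl
  rw [h2, h1.tsum_eq]
  push_cast
  ring

theorem h_mem (L : IntermediateField ℚ ℝ) (k : ℕ) (hpi : Real.pi ∈ L)
    (hz : ∀ i, 1 ≤ i → 2 * i + 1 ≤ k → zeta (2 * i + 1) ∈ L) : ∀ i, i ≤ k → h i ∈ L := by
  have hzz : ∀ j, 2 ≤ j → j ≤ k → zeta j ∈ L := by
    intro j hj hjk
    rcases Nat.even_or_odd j with ⟨m, hm⟩ | ⟨m, hm⟩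
    · obtain ⟨q, hq⟩ := zeta_even m (by omega)
      rw [show j = 2 * m by omega, hq]
      exact L.mul_mem (L.algebraMap_mem q) (pow_mem hpi _)
    · rw [hm]
      exact hz m (by omega) (by omega)
  intro i
  induction i using Nat.strong_induction_on with
  | _ i ih =>
    intro hi
    rcases Nat.eq_zero_or_pos i with h0 | h0
    · rw [h0, h_zero]
      exact L.one_mem
    · obtain ⟨m, rfl⟩ : ∃ m, i = m + 1 := ⟨i - 1, by omega⟩
      have h1 := h_succ m
      have h2 : ((m : ℝ) + 1) ≠ 0 := by positivity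
      have h3 : h (m + 1) = ((m : ℝ) + 1)⁻¹ * ∑ j ∈ Finset.Icc 2 (m + 1), (-1 : ℝ) ^ j * zeta j * h (m + 1 - j) := by
        rw [← h1]
        field_simp
      rw [h3]
      have h4 : ((m : ℝ) + 1) ∈ L := by
        have := L.algebraMap_mem ((m : ℚ) + 1)
        simpa using this
      refine L.mul_mem (L.inv_mem h4) (L.sum_mem fun j hj => ?_)
      rw [Finset.mem_Icc] at hj
      refine L.mul_mem (L.mul_mem ?_ (hzz j hj.1 (by omega))) (ih (m + 1 - j) (by omega) (by omega))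
      exact pow_mem (L.neg_mem L.one_mem) _

/-- from h_succ, zeta_even and shiftN (strong induction for h i) -/
theorem N_mem (L : IntermediateField ℚ ℝ) (k n : ℕ) (hpi : Real.pi ∈ L)
    (hz : ∀ i, 1 ≤ i → 2 * i + 1 ≤ k → zeta (2 * i + 1) ∈ L) : N k n ∈ L := by
  rw [shiftN]
  have h1 : (k.factorial : ℝ) ∈ L := by
    simp
  refine L.mul_mem h1 (L.sum_mem fun j hj => ?_)
  rw [Finset.mem_range] at hj
  refine L.mul_mem ?_ (h_mem L k hpi hz (k - j) (by omega))
  simp

end Pool.Agent.GJ14
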