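import Pool.Agent.GJ14.Main
import Pool.Agent.GJ14.Rev
import Pool.Agent.GD71.Indep

/-!
Algebraic independence of `π, ζ(3), ζ(5), …` and of the numbers `N k n`.
-/

set_option autoImplicit false

namespace Pool.Agent.GJ14

open Finset Pool.Agent.GD71

/-- the sequence `π, ζ(3), ζ(5), …` -/
noncomputable def const (i : ℕ) : ℝ := if i = 0 then Real.pi else zeta (2 * i + 1)

/-- from main, N_mem and GD71.indep, used in both directions -/
theorem indep_iff (m k : ℕ) (hk : 2 ≤ k) (hkm : k = 2 * m ∨ k + 1 = 2 * m) (n : Fin m → ℕ)
    (hn : Function.Injective n) :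
    AlgebraicIndependent ℚ (fun i : Fin m => const i) ↔
      AlgebraicIndependent ℚ (fun i : Fin m => N k (n i)) := by
  have hm : 1 ≤ m := by omega
  constructor
  · intro hb
    refine GD71.indep _ _ (fun i => ?_) hb
    have hset : Set.range (fun i : Fin m => N k (n i)) =
        N k '' ((univ.image n : Finset ℕ) : Set ℕ) := by
      ext x
      simp
    rw [hset]
    refine main k hk (univ.image n) ?_ _ ?_
    · rw [Finset.card_image_of_injective _ hn, Finset.card_univ, Fintype.card_fin]
      omega
    · unfold const
      by_cases hi : (i : ℕ) = 0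
      · left
        rw [if_pos hi]
      · right
        have := i.2
        exact ⟨2 * (i : ℕ) + 1, by omega, by omega, if_neg hi⟩
  · intro hb
    refine GD71.indep _ _ (fun i => ?_) hb
    have hmem : N k (n i) ∈ IntermediateField.adjoin ℚ (Set.range fun i : Fin m => const i) := by
      refine N_mem _ k (n i) ?_ ?_
      · refine IntermediateField.subset_adjoin ℚ _ ⟨⟨0, by omega⟩, ?_⟩
        simp [const]
      · intro j hj hjk
        refine IntermediateField.subset_adjoin ℚ _ ⟨⟨j, by omega⟩, ?_⟩
        have : j ≠ 0 := by omega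
        simp [const, this]
    exact isAlgebraic_algebraMap (⟨_, hmem⟩ :
      IntermediateField.adjoin ℚ (Set.range fun i : Fin m => const i))

/-- finite subfamilies (AlgebraicIndependent is of finite character; comp with injective maps) -/
theorem q1_iff : AlgebraicIndependent ℚ const ↔
    ∀ m : ℕ, 1 ≤ m → AlgebraicIndependent ℚ (fun i : Fin m => N (2 * m) i) := by
  have hfin : AlgebraicIndependent ℚ const ↔
      ∀ m : ℕ, 1 ≤ m → AlgebraicIndependent ℚ (fun i : Fin m => const i) := by
    constructor
    · intro h m _
      exact h.comp (fun i : Fin m => (i : ℕ)) Fin.val_injective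
    · intro h
      rw [algebraicIndependent_iff]
      intro p hp
      obtain ⟨m, hm⟩ : ∃ m : ℕ, ∀ i ∈ p.vars, i < m :=
        ⟨p.vars.sup id + 1, fun i hi => Nat.lt_succ_of_le (Finset.le_sup (f := id) hi)⟩
      have hsub : (p.vars : Set ℕ) ⊆ Set.range (fun i : Fin (m + 1) => (i : ℕ)) := by
        intro i hi
        exact ⟨⟨i, by have := hm i hi; omega⟩, rfl⟩
      obtain ⟨q, hq⟩ := MvPolynomial.exists_rename_eq_of_vars_subset_range p
        (fun i : Fin (m + 1) => (i : ℕ)) Fin.val_injective hsub
      have h1 := (algebraicIndependent_iff.1 (h (m + 1) (by omega))) q (by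
        have h2 : MvPolynomial.aeval (fun i : Fin (m + 1) => const i) q =
            MvPolynomial.aeval const (MvPolynomial.rename (fun i : Fin (m + 1) => (i : ℕ)) q) := by
          rw [MvPolynomial.aeval_rename]
          rfl
        rw [h2, hq, hp])
      rw [← hq, h1, map_zero]
  rw [hfin]
  constructor
  · intro h m hm
    exact (indep_iff m (2 * m) (by omega) (Or.inl rfl) (fun i => i) Fin.val_injective).1 (h m hm)
  · intro h m hm
    exact (indep_iff m (2 * m) (by omega) (Or.inl rfl) (fun i => i) Fin.val_injective).2 (h m hm)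

end Pool.Agent.GJ14
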