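import Mathlib
import Pool.Agent.GJ14.Defs

/-!
The integrals in terms of the derivatives of the Gamma function.
-/

set_option autoImplicit false

namespace Pool.Agent.GJ14

open Finset Pool.Agent.GD71

section mellin

open MeasureTheory Set Filter Topology Asymptotics

/-- The function `log t ^ j * exp (-t)`, with complex values. -/
noncomputable def fj (j : ℕ) (t : ℝ) : ℂ := ((Real.log t ^ j * Real.exp (-t) : ℝ) : ℂ)

theorem fj_succ (j : ℕ) (t : ℝ) : fj (j + 1) t = Real.log t • fj j t := by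
  simp only [fj, Complex.real_smul]
  push_cast
  ring

theorem fj_locallyIntegrableOn (j : ℕ) : LocallyIntegrableOn (fj j) (Ioi 0) volume := by
  refine ContinuousOn.locallyIntegrableOn ?_ measurableSet_Ioi
  unfold fj
  refine Complex.continuous_ofReal.comp_continuousOn ?_
  refine ((Real.continuousOn_log.mono ?_).pow j).mul (by fun_prop)
  intro x hx
  exact (ne_of_gt hx : x ≠ 0)

theorem fj_isBigO_atTop (j : ℕ) (a : ℝ) : fj j =O[atTop] fun t : ℝ => t ^ (-a) := by
  have h1 : (fun t : ℝ => Real.log t ^ j) =O[atTop] (fun t : ℝ => t) :=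
    (Real.isLittleO_pow_log_id_atTop (n := j)).isBigO
  have h2 : (fun t : ℝ => Real.exp (-t)) =O[atTop] (fun t : ℝ => t ^ (-a - 1)) := by
    simpa using (isLittleO_exp_neg_mul_rpow_atTop one_pos (-a - 1)).isBigO
  have h3 := h1.mul h2
  have h4 : (fun t : ℝ => t * t ^ (-a - 1)) =ᶠ[atTop] fun t : ℝ => t ^ (-a) := by
    filter_upwards [eventually_gt_atTop 0] with t ht
    rw [Real.rpow_sub_one ht.ne']
    field_simp
  have h5 := h3.trans_eventuallyEq h4
  refine IsBigO.trans (IsBigO.of_bound 1 (Eventually.of_forall fun t => ?_)) h5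
  rw [fj, Complex.norm_real, one_mul]

theorem fj_isBigO_zero (j : ℕ) {b : ℝ} (hb : 0 < b) :
    fj j =O[𝓝[>] 0] fun t : ℝ => t ^ (-b) := by
  have h1 : (fun t : ℝ => |Real.log t| ^ (j : ℝ)) =O[𝓝[>] 0] (fun t : ℝ => t ^ (-b)) :=
    (isLittleO_abs_log_rpow_rpow_nhdsGT_zero (j : ℝ) (neg_lt_zero.2 hb)).isBigO
  refine IsBigO.trans (IsBigO.of_bound 1 ?_) h1
  filter_upwards [self_mem_nhdsWithin] with t ht
  have ht' : (0 : ℝ) < t := ht
  rw [fj, Complex.norm_real, norm_mul, Real.rpow_natCast, one_mul, norm_pow, norm_pow]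
  simp only [Real.norm_eq_abs, abs_abs, Real.abs_exp]
  exact mul_le_of_le_one_right (by positivity) (Real.exp_le_one_iff.2 (by linarith))

theorem fj_conv (j : ℕ) {s : ℂ} (hs : 0 < s.re) : MellinConvergent (fj j) s :=
  mellinConvergent_of_isBigO_rpow (a := s.re + 1) (b := s.re / 2) (fj_locallyIntegrableOn j)
    (fj_isBigO_atTop j _) (by linarith) (fj_isBigO_zero j (by linarith)) (by linarith)

theorem fj_deriv (j : ℕ) {s : ℂ} (hs : 0 < s.re) :
    HasDerivAt (mellin (fj j)) (mellin (fj (j + 1)) s) s := by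
  have h := (mellin_hasDerivAt_of_isBigO_rpow (a := s.re + 1) (b := s.re / 2)
    (fj_locallyIntegrableOn j) (fj_isBigO_atTop j _) (by linarith)
    (fj_isBigO_zero j (by linarith)) (by linarith)).2
  have h1 : (fun t => Real.log t • fj j t) = fj (j + 1) := by
    funext t
    rw [fj_succ]
  rwa [h1] at h

theorem fj_integrand (j : ℕ) (x : ℝ) {t : ℝ} (ht : t ∈ Ioi (0 : ℝ)) :
    (t : ℂ) ^ ((x : ℂ) - 1) • fj j t =
      ((Real.log t ^ j * t ^ (x - 1) * Real.exp (-t) : ℝ) : ℂ) := by
  have ht' : (0 : ℝ) < t := ht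
  rw [fj, smul_eq_mul]
  have h : ((t : ℂ) ^ ((x : ℂ) - 1)) = ((t ^ (x - 1) : ℝ) : ℂ) := by
    rw [Complex.ofReal_cpow ht'.le]
    push_cast
    rfl
  rw [h]
  push_cast
  ring

/-- The real integral. -/
noncomputable def F (j : ℕ) (x : ℝ) : ℝ :=
  ∫ t in Ioi (0 : ℝ), Real.log t ^ j * t ^ (x - 1) * Real.exp (-t)

theorem mellin_fj (j : ℕ) (x : ℝ) : mellin (fj j) (x : ℂ) = ((F j x : ℝ) : ℂ) := by
  rw [mellin, F]
  refine Eq.trans ?_ integral_ofReal
  exact setIntegral_congr_fun measurableSet_Ioi fun t ht => fj_integrand j x ht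

theorem integrableOn_F (j : ℕ) {x : ℝ} (hx : 0 < x) :
    IntegrableOn (fun t : ℝ => Real.log t ^ j * t ^ (x - 1) * Real.exp (-t)) (Ioi 0) := by
  have h : MellinConvergent (fj j) (x : ℂ) := fj_conv j (by simpa using hx)
  have h1 : IntegrableOn (fun t : ℝ =>
      ((Real.log t ^ j * t ^ (x - 1) * Real.exp (-t) : ℝ) : ℂ)) (Ioi 0) :=
    IntegrableOn.congr_fun h (fun t ht => fj_integrand j x ht) measurableSet_Ioi
  exact Integrable.re h1

theorem hasDerivAt_F (j : ℕ) {x : ℝ} (hx : 0 < x) : HasDerivAt (F j) (F (j + 1) x) x := by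
  have h := (fj_deriv j (s := (x : ℂ)) (by simpa using hx)).real_of_complex
  simp only [mellin_fj, Complex.ofReal_re] at h
  exact h

theorem iteratedDeriv_Gamma (j : ℕ) {x : ℝ} (hx : 0 < x) :
    iteratedDeriv j Real.Gamma x = F j x := by
  induction j generalizing x with
  | zero =>
    rw [iteratedDeriv_zero, Real.Gamma_eq_integral hx, F]
    refine setIntegral_congr_fun measurableSet_Ioi fun t _ => ?_
    simp only [pow_zero, one_mul]
    ring
  | succ j ih =>
    rw [iteratedDeriv_succ]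
    have h : iteratedDeriv j Real.Gamma =ᶠ[𝓝 x] F j := by
      filter_upwards [Ioi_mem_nhds hx] with y hy
      exact ih hy
    rw [h.deriv_eq]
    exact (hasDerivAt_F j hx).deriv

end mellin

/-- M1a: the derivatives of the Gamma function as integrals. -/
theorem deriv_Gamma (j n : ℕ) :
    MeasureTheory.IntegrableOn (fun t : ℝ => Real.log t ^ j * t ^ n * Real.exp (-t)) (Set.Ioi 0) ∧
    iteratedDeriv j Real.Gamma ((n : ℝ) + 1) =
      ∫ t in Set.Ioi (0 : ℝ), Real.log t ^ j * t ^ n * Real.exp (-t) := by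
  have hn : (0 : ℝ) < (n : ℝ) + 1 := by positivity
  have h1 := integrableOn_F j hn
  have h2 := iteratedDeriv_Gamma j hn
  rw [F] at h2
  simp only [add_sub_cancel_right, Real.rpow_natCast] at h1 h2
  exact ⟨h1, h2⟩

/-- M1b: binomial theorem. -/
theorem N_eq (k n : ℕ) : N k n = ∑ j ∈ range (k + 1),
    (k.choose j : ℝ) * Real.eulerMascheroniConstant ^ (k - j) *
      iteratedDeriv j Real.Gamma ((n : ℝ) + 1) := by
  have h : ∀ t : ℝ, (Real.eulerMascheroniConstant + Real.log t) ^ k * t ^ n * Real.exp (-t) =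
      ∑ j ∈ range (k + 1), ((k.choose j : ℝ) * Real.eulerMascheroniConstant ^ (k - j)) *
        (Real.log t ^ j * t ^ n * Real.exp (-t)) := by
    intro t
    rw [add_comm, add_pow, Finset.sum_mul, Finset.sum_mul]
    refine Finset.sum_congr rfl fun j _ => ?_
    ring
  rw [N]
  simp only [h]
  rw [MeasureTheory.integral_finsetSum _ fun j _ => (deriv_Gamma j n).1.const_mul _]
  refine Finset.sum_congr rfl fun j _ => ?_
  rw [MeasureTheory.integral_const_mul, (deriv_Gamma j n).2]

end Pool.Agent.GJ14
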