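import Pool.Agent.GJ14.H
import Pool.Agent.GD71.Main

/-!
Assembly: the numbers `N k n` generate a field over which `π`, `ζ(2)`, …, `ζ(k)` are algebraic.
-/

set_option autoImplicit false

namespace Pool.Agent.GJ14

open Finset Pool.Agent.GD71


/-- the scaled coefficients are small for the top indices. -/
lemma vanish (K : IntermediateField ℚ ℝ) (V : ValuationSubring ℝ) (t : ℝ)
    (hV : ∀ a : ℝ, IsAlgebraic K a → a ∈ V) (ht1 : V.valuation t < 1)
    (k r : ℕ) (hr : r < k) (hg : ∀ i ≤ k, V.valuation (GJ14.h i * t ^ i) ≤ 1)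
    (n : Fin (r + 1) → ℕ) (hn : StrictMono n)
    (hK : ∀ i, N k (n i) ∈ K) (l : ℕ) (hl : l ≤ r) :
    V.valuation (GJ14.h (k - l) * t ^ (k - l)) < 1 := by
  set v := V.valuation with hv
  obtain ⟨a, ha⟩ := exists_comb r n hn l hl
  set Q : ℕ → ℚ := fun j => ∑ i, a i * E (n i) j with hQ
  have hq1 : ∀ q : ℚ, v (q : ℝ) ≤ 1 := by
    intro q
    rw [hv, V.valuation_le_one_iff]
    exact hV _ (by
      have : (q : ℝ) = algebraMap K ℝ (q : K) := by simp
      rw [this]
      exact isAlgebraic_algebraMap _)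
  have hpow : ∀ j : ℕ, 1 ≤ j → v (t ^ j) < 1 := by
    intro j hj
    rw [map_pow]
    exact pow_lt_one₀ zero_le ht1 (by omega)
  set A : ℝ := ∑ i, (a i : ℝ) * (N k (n i) / (k.factorial : ℝ)) with hA
  have hAK : A ∈ K := by
    refine sum_mem fun i _ => mul_mem (SubfieldClass.ratCast_mem _ _) (div_mem (hK i) (natCast_mem _ _))
  have hAv : v A ≤ 1 := by
    rw [hv, V.valuation_le_one_iff]
    exact hV _ (by
      have : A = algebraMap K ℝ ⟨A, hAK⟩ := rfl
      rw [this]
      exact isAlgebraic_algebraMap _)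
  have hfac : (k.factorial : ℝ) ≠ 0 := by positivity
  have hAsum : A = ∑ j ∈ range (k + 1), (Q j : ℝ) * GJ14.h (k - j) := by
    rw [hA]
    have h1 : ∀ i, (a i : ℝ) * (N k (n i) / (k.factorial : ℝ)) =
        ∑ j ∈ range (k + 1), (a i : ℝ) * ((E (n i) j : ℝ) * GJ14.h (k - j)) := by
      intro i
      rw [shiftN, mul_div_cancel_left₀ _ hfac, Finset.mul_sum]
    simp_rw [h1]
    rw [Finset.sum_comm]
    refine Finset.sum_congr rfl fun j _ => ?_
    rw [hQ]
    push_cast
    rw [Finset.sum_mul]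
    refine Finset.sum_congr rfl fun i _ => ?_
    ring
  have hlk : l ∈ range (k + 1) := Finset.mem_range.2 (by omega)
  have hQl : Q l = 1 := by
    have := ha l hl
    rw [if_pos rfl] at this
    exact this
  rw [← Finset.add_sum_erase _ _ hlk, hQl, Rat.cast_one, one_mul] at hAsum
  have heq : GJ14.h (k - l) * t ^ (k - l) = A * t ^ (k - l) -
      ∑ j ∈ (range (k + 1)).erase l, (Q j : ℝ) * GJ14.h (k - j) * t ^ (k - l) := by
    rw [← Finset.sum_mul, hAsum]
    ring
  rw [heq]
  refine lt_of_le_of_lt (Valuation.map_sub v _ _) (max_lt ?_ ?_)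
  · rw [map_mul]
    exact mlt hAv (hpow _ (by omega))
  · refine Valuation.map_sum_lt v one_ne_zero fun j hj => ?_
    rw [Finset.mem_erase, Finset.mem_range] at hj
    rcases le_or_gt j r with h1 | h1
    · have h2 : Q j = 0 := by
        have := ha j h1
        rw [if_neg hj.1] at this
        exact this
      rw [h2]
      simp
    · have h3 : t ^ (k - l) = t ^ (k - j) * t ^ (j - l) := by
        rw [← pow_add]
        congr 1
        omega
      have h4 : (Q j : ℝ) * GJ14.h (k - j) * t ^ (k - l) =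
          (Q j : ℝ) * (GJ14.h (k - j) * t ^ (k - j)) * t ^ (j - l) := by
        rw [h3]; ring
      rw [h4, map_mul, map_mul]
      refine mlt ?_ (hpow _ (by omega))
      exact mul_le_one' (hq1 _) (hg _ (by omega))

/-- the core: everything is algebraic over `K` -/
lemma core (K : IntermediateField ℚ ℝ) (k r : ℕ) (hk : 2 ≤ k)
    (n : Fin (r + 1) → ℕ) (hn : StrictMono n)
    (hK : ∀ i, N k (n i) ∈ K)
    (hr : r + 1 = (k + 1) / 2) :
    IsAlgebraic K Real.pi ∧ ∀ i, 1 ≤ i → i ≤ k → IsAlgebraic K (GJ14.h i) := by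
  classical
  by_contra hcon
  set x : Fin (k + 1) → ℝ := fun i => if (i : ℕ) = 0 then Real.pi else GJ14.h i with hx
  set w : Fin (k + 1) → ℕ := fun i => if (i : ℕ) = 0 then 1 else (i : ℕ) with hw
  have hw0 : ∀ i, 0 < w i := by
    intro i
    simp only [hw]
    split_ifs <;> omega
  have hex : ∃ i, ¬ IsAlgebraic K (x i) := by
    by_contra h
    push Not at h
    refine hcon ⟨?_, fun i hi1 hi2 => ?_⟩
    · have := h ⟨0, by omega⟩
      simpa [hx] using this
    · have := h ⟨i, by omega⟩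
      simp only [hx] at this
      rwa [if_neg (by omega)] at this
  obtain ⟨V, t, hV, htV, ht1, ht0, hmem, hunit⟩ := exists_place K x w hw0 hex
  set v := V.valuation with hv
  have hgV : ∀ i ≤ k, GJ14.h i * t ^ i ∈ V := by
    intro i hi
    rcases Nat.eq_zero_or_pos i with h1 | h1
    · subst h1
      rw [h_zero, pow_zero, mul_one]
      exact one_mem V
    · have := hmem ⟨i, by omega⟩
      simp only [hx, hw] at this
      rwa [if_neg (by omega), if_neg (by omega)] at this
  have hpV : Real.pi * t ∈ V := by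
    have := hmem ⟨0, by omega⟩
    simpa [hx, hw] using this
  have hgv : ∀ i ≤ k, v (GJ14.h i * t ^ i) ≤ 1 := by
    intro i hi
    rw [hv, V.valuation_le_one_iff]
    exact hgV i hi
  have hrk : r < k := by
    omega
  have hvan := vanish K V t hV ht1 k r hrk hgv n hn hK
  -- the residue field
  set ρ : V →+* IsLocalRing.ResidueField V := IsLocalRing.residue V with hρ
  have hρ0 : ∀ a : V, ρ a = 0 ↔ v (a : ℝ) < 1 := by
    intro a
    rw [hρ, IsLocalRing.residue_eq_zero_iff, ValuationSubring.valuation_lt_one_iff]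
  have hchar : CharZero (IsLocalRing.ResidueField V) := by
    refine charZero_of_inj_zero fun m hm => ?_
    by_contra hm0
    have h1 : ρ ((m : ℕ) : V) = 0 := by rw [map_natCast]; exact hm
    rw [hρ0] at h1
    have h2 : v ((m : ℝ)⁻¹) ≤ 1 := by
      rw [hv, V.valuation_le_one_iff]
      refine hV _ ?_
      have : ((m : ℝ)⁻¹) = algebraMap K ℝ ((m : K)⁻¹) := by simp
      rw [this]
      exact isAlgebraic_algebraMap _
    have h3 : v (((m : V) : ℝ) * (m : ℝ)⁻¹) = 1 := by
      have : ((m : V) : ℝ) = (m : ℝ) := by simp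
      rw [this, mul_inv_cancel₀ (by exact_mod_cast hm0), map_one]
    rw [map_mul] at h3
    have h4 := mul_lt_one_of_lt_of_le h1 h2
    rw [h3] at h4
    exact lt_irrefl _ h4
  set G : ℕ → V := fun i => if hm : GJ14.h i * t ^ i ∈ V then ⟨GJ14.h i * t ^ i, hm⟩ else 0 with hG
  have hGval : ∀ i ≤ k, (G i : ℝ) = GJ14.h i * t ^ i := by
    intro i hi
    simp only [hG]
    rw [dif_pos (hgV i hi)]
  set p : V := ⟨Real.pi * t, hpV⟩ with hp
  have hκk : 2 * (k / 2) ≤ k := by omega
  have hrat : ∀ q : ℚ, ∃ a : V, (a : ℝ) = (q : ℝ) ∧ ρ a = (q : IsLocalRing.ResidueField V) := by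
    intro q
    have hqV : ∀ q : ℚ, (q : ℝ) ∈ V := by
      intro q
      refine hV _ ?_
      have : (q : ℝ) = algebraMap K ℝ (q : K) := by simp
      rw [this]
      exact isAlgebraic_algebraMap _
    refine ⟨⟨(q : ℝ), hqV q⟩, rfl, ?_⟩
    have hd : (q.den : IsLocalRing.ResidueField V) ≠ 0 := Nat.cast_ne_zero.2 q.den_nz
    have h1 : (⟨(q : ℝ), hqV q⟩ : V) * ((q.den : ℕ) : V) = ((q.num : ℤ) : V) := by
      apply Subtype.ext
      push_cast
      have := Rat.mul_den_eq_num q
      exact_mod_cast this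
    have h2 := congrArg ρ h1
    rw [map_mul, map_natCast, map_intCast] at h2
    have h3 : (q : IsLocalRing.ResidueField V) = (q.num : IsLocalRing.ResidueField V) / q.den := by
      exact Rat.cast_def q
    rw [h3, eq_div_iff hd]
    exact h2
  have halg := alg (k / 2) (by omega) c (by rw [c]) (by rw [c]; simp [c, Nat.factorial]) C_pos'
    c_two (fun i => ρ (G i)) (ρ p) ?_ ?_ ?_ ?_
  · -- all residues vanish
    obtain ⟨hp0, hh⟩ := halg
    have hall : ∀ i, 1 ≤ i → i ≤ k → v (GJ14.h i * t ^ i) < 1 := by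
      intro i hi1 hi2
      rcases le_or_gt i (k / 2) with h1 | h1
      · have := hh i hi1 h1
        rw [hρ0, hGval i hi2] at this
        exact this
      · have := hvan (k - i) (by omega)
        rwa [show k - (k - i) = i by omega] at this
    obtain ⟨i, hi⟩ := hunit
    simp only [hx, hw] at hi
    rcases Nat.eq_zero_or_pos (i : ℕ) with h1 | h1
    · rw [if_pos h1, if_pos h1, pow_one] at hi
      have h2 : v (p : ℝ) < 1 := (hρ0 p).1 hp0
      rw [hp] at h2
      simp only at h2
      rw [hi] at h2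
      exact lt_irrefl _ h2
    · rw [if_neg (by omega), if_neg (by omega)] at hi
      have h2 := hall i h1 (by omega)
      rw [hi] at h2
      exact lt_irrefl _ h2
  · -- h 0 = 1
    have h1 : G 0 = 1 := by
      apply Subtype.ext
      rw [hGval 0 (by omega), h_zero]
      simp
    simp only [h1, map_one]
  · -- the relations
    intro l hl
    obtain ⟨a, ha1, ha2⟩ := hrat (c l)
    have h1 : ∑ i ∈ range (2 * l + 1), (-1 : V) ^ i * G i * G (2 * l - i) = a * p ^ (2 * l) := by
      apply Subtype.ext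
      push_cast
      rw [ha1, hp]
      have h2 := conv l
      have h3 : ((c l : ℝ) * (Real.pi * t) ^ (2 * l)) = ((c l : ℝ) * Real.pi ^ (2 * l)) * t ^ (2 * l) := by
        rw [mul_pow]; ring
      simp only
      rw [h3, ← h2, Finset.sum_mul]
      refine Finset.sum_congr rfl fun i hi => ?_
      rw [Finset.mem_range] at hi
      rw [hGval i (by omega), hGval (2 * l - i) (by omega)]
      have h4 : t ^ (2 * l) = t ^ i * t ^ (2 * l - i) := by
        rw [← pow_add]
        congr 1
        omega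
      rw [h4]
      ring
    have h2 := congrArg ρ h1
    rw [map_sum, map_mul, map_pow, ha2] at h2
    rw [← h2]
    refine Finset.sum_congr rfl fun i _ => ?_
    rw [map_mul, map_mul, map_pow, map_neg, map_one]
  · -- vanishing
    intro i hi1 hi2
    rw [hρ0, hGval i (by omega)]
    have := hvan (k - i) (by omega)
    rwa [show k - (k - i) = i by omega] at this
  · right
    rw [hρ0, hGval 1 (by omega), h_one, zero_mul, map_zero]
    exact zero_lt_one

/-- all the constants are algebraic over `K` -/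
lemma constants (K : IntermediateField ℚ ℝ) (k : ℕ)
    (hg : ∀ i, 1 ≤ i → i ≤ k → IsAlgebraic K (GJ14.h i)) :
    ∀ j, 2 ≤ j → j ≤ k → IsAlgebraic K (zeta j) := by
  have hgL : ∀ i ≤ k, GJ14.h i ∈ algebraicClosure K ℝ := by
    intro i hi
    rcases Nat.eq_zero_or_pos i with h1 | h1
    · rw [h1, h_zero]; exact one_mem _
    · exact mem_algebraicClosure_iff.2 (hg i h1 hi)
  refine fun j hj1 hj2 => mem_algebraicClosure_iff.1 ?_
  induction j using Nat.strong_induction_on with
  | _ j ih =>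
    obtain ⟨i, rfl⟩ : ∃ i, j = i + 1 := ⟨j - 1, by omega⟩
    have h1 := h_succ i
    have h2 : i + 1 ∈ Finset.Icc 2 (i + 1) := Finset.mem_Icc.2 ⟨hj1, le_rfl⟩
    rw [← Finset.add_sum_erase _ _ h2, Nat.sub_self, h_zero, mul_one] at h1
    have h3 : zeta (i + 1) = (-1 : ℝ) ^ (i + 1) * (((i : ℝ) + 1) * GJ14.h (i + 1) -
        ∑ x ∈ (Finset.Icc 2 (i + 1)).erase (i + 1), (-1 : ℝ) ^ x * zeta x * GJ14.h (i + 1 - x)) := by
      have h4 : (-1 : ℝ) ^ (i + 1) * (-1 : ℝ) ^ (i + 1) = 1 := by
        rw [← mul_pow]; norm_num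
      linear_combination (-(-1 : ℝ) ^ (i + 1)) * h1 - (zeta (i + 1)) * h4
    rw [h3]
    have hneg : ∀ n : ℕ, ((-1 : ℝ) ^ n) ∈ algebraicClosure K ℝ := fun n =>
      pow_mem (neg_mem (one_mem _)) n
    refine mul_mem (hneg _) (sub_mem (mul_mem ?_ (hgL _ hj2))
      (sum_mem fun x hx => ?_))
    · exact add_mem (natCast_mem _ i) (one_mem _)
    · rw [Finset.mem_erase, Finset.mem_Icc] at hx
      exact mul_mem (mul_mem (hneg _) (ih x (by omega) hx.2.1 (by omega))) (hgL _ (by omega))

/-- `π`, `ζ(2)`, …, `ζ(k)` are algebraic over the field generated by at least `(k + 1) / 2` of the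
numbers `N k n` -/
theorem main (k : ℕ) (hk : 2 ≤ k) (s : Finset ℕ) (hs : (k + 1) / 2 ≤ s.card) (x : ℝ)
    (hx : x = Real.pi ∨ ∃ j, 2 ≤ j ∧ j ≤ k ∧ x = zeta j) :
    IsAlgebraic (IntermediateField.adjoin ℚ (N k '' (s : Set ℕ))) x := by
  classical
  set K := IntermediateField.adjoin ℚ (N k '' (s : Set ℕ)) with hK
  obtain ⟨r, hr⟩ : ∃ r, r + 1 = (k + 1) / 2 := ⟨(k + 1) / 2 - 1, by omega⟩
  obtain ⟨u, hu, hcard⟩ := Finset.exists_subset_card_eq (show r + 1 ≤ s.card by omega)
  obtain ⟨h1, h2⟩ := core K k r hk (fun i => u.orderEmbOfFin hcard i)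
    (u.orderEmbOfFin hcard).strictMono
    (fun i => IntermediateField.subset_adjoin ℚ _ ⟨_, hu (u.orderEmbOfFin_mem hcard i), rfl⟩) hr
  rcases hx with rfl | ⟨j, hj1, hj2, rfl⟩
  · exact h1
  · exact constants K k h2 j hj1 hj2

end Pool.Agent.GJ14
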